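import Mathlib
import Pool.Agent.N44.FA.Stm

/-!
# FA/SGL: `Gr` contains the factors and the factors are perfect
-/

set_option autoImplicit false

namespace Pool.Agent.N713.FA

open Pool.Agent.N44.NS Pool.Agent.N44.FA
open scoped commutatorElement

section rel

variable {A : Type} [Ring A]

theorem el_zero {i j : Fin 3} (h : i ≠ j) : el i j h (0 : A) = 1 := by
  apply Units.ext
  change (1 + Matrix.single i j 0 : Matrix (Fin 3) (Fin 3) A) = 1
  rw [Matrix.single_zero, add_zero]

theorem el_rel {i j k : Fin 3} (hij : i ≠ j) (hjk : j ≠ k) (hik : i ≠ k) (a b : A) :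
    el i j hij a * el j k hjk b = el j k hjk b * (el i j hij a * el i k hik (a * b)) := by
  apply Units.ext
  change ((1 + Matrix.single i j a) * (1 + Matrix.single j k b) : Matrix (Fin 3) (Fin 3) A) =
    (1 + Matrix.single j k b) * ((1 + Matrix.single i j a) * (1 + Matrix.single i k (a * b)))
  have h1 : (Matrix.single i j a * Matrix.single j k b : Matrix (Fin 3) (Fin 3) A) =
      Matrix.single i k (a * b) := Matrix.single_mul_single_same ..
  have h2 : (Matrix.single j k b * Matrix.single i j a : Matrix (Fin 3) (Fin 3) A) = 0 :=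
    Matrix.single_mul_single_of_ne _ _ _ _ hik.symm _
  have h3 : (Matrix.single i j a * Matrix.single i k (a * b) : Matrix (Fin 3) (Fin 3) A) = 0 :=
    Matrix.single_mul_single_of_ne _ _ _ _ hij.symm _
  have h4 : (Matrix.single j k b * Matrix.single i k (a * b) : Matrix (Fin 3) (Fin 3) A) = 0 :=
    Matrix.single_mul_single_of_ne _ _ _ _ hik.symm _
  simp only [mul_add, add_mul, one_mul, mul_one, h1, h2, h3, h4, add_zero]
  abel

theorem third (i j : Fin 3) : ∃ l : Fin 3, i ≠ l ∧ l ≠ j := by
  revert i j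
  decide

theorem el_comm {i l j : Fin 3} (hil : i ≠ l) (hlj : l ≠ j) (hij : i ≠ j) (a : A) :
    el i j hij a = ⁅(el i l hil a)⁻¹, (el l j hlj 1)⁻¹⁆ := by
  have h := el_rel hil hlj hij a 1
  rw [mul_one] at h
  rw [commutatorElement_def, inv_inv, inv_inv]
  have e : (el i l hil a)⁻¹ * (el l j hlj 1)⁻¹ * el i l hil a * el l j hlj 1 =
      (el i l hil a)⁻¹ * (el l j hlj 1)⁻¹ * (el i l hil a * el l j hlj 1) := by group
  rw [e, h]
  group

end rel

/-- every element of a factor of the product lies in `R` -/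
theorem single_mem (hI : S_IDEM) (hO : S_ONTO) (k : ℕ) (a : Mt k) :
    (Pi.single k a : ∀ k, Mt k) ∈ R := by
  have hle : Algebra.adjoin (ZMod 2) {xx k 0, yy k 0, sh k, sh' k} ≤
      R.map (Pi.evalAlgHom (ZMod 2) Mt k) := by
    refine Algebra.adjoin_le ?_
    rintro _ (rfl | rfl | rfl | rfl)
    · exact ⟨fun k => xx k 0, Algebra.subset_adjoin (by simp), rfl⟩
    · exact ⟨fun k => yy k 0, Algebra.subset_adjoin (by simp), rfl⟩
    · exact ⟨sh, Algebra.subset_adjoin (by simp), rfl⟩
    · exact ⟨sh', Algebra.subset_adjoin (by simp), rfl⟩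
  have ha : a ∈ R.map (Pi.evalAlgHom (ZMod 2) Mt k) := by
    apply hle
    rw [hO k]
    exact Algebra.mem_top
  obtain ⟨r, hr, hra⟩ := ha
  have hra' : r k = a := hra
  have e : (Pi.single k a : ∀ k, Mt k) = r * Pi.single k 1 := by
    funext k'
    by_cases h : k' = k
    · subst h
      rw [Pi.mul_apply, Pi.single_eq_same, Pi.single_eq_same, hra', mul_one]
    · rw [Pi.mul_apply, Pi.single_eq_of_ne h, Pi.single_eq_of_ne h, mul_zero]
  rw [e]
  exact R.mul_mem hr (hI k)

theorem mulSingle_el (i j : Fin 3) (h : i ≠ j) (k : ℕ) (a : Mt k) :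
    (Pi.mulSingle k (el i j h a) : ∀ k, St k) = EE i j h (Pi.single k a) := by
  funext k'
  by_cases hk : k' = k
  · subst hk
    rw [Pi.mulSingle_eq_same]
    show el i j h a = el i j h ((Pi.single k' a : ∀ k, Mt k) k')
    rw [Pi.single_eq_same]
  · rw [Pi.mulSingle_eq_of_ne hk]
    show 1 = el i j h ((Pi.single k a : ∀ k, Mt k) k')
    rw [Pi.single_eq_of_ne hk, el_zero]

theorem t_sgl : S_IDEM → S_ONTO → S_EL → S_SGL := by
  intro hI hO hE
  constructor
  · intro k s
    have hs : s ∈ E3 (Mt k) := by rw [hE k]; exact Subgroup.mem_top s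
    unfold E3 at hs
    induction hs using Subgroup.closure_induction with
    | mem x hx =>
      obtain ⟨i, j, h, a, rfl⟩ := hx
      rw [mulSingle_el]
      exact Subgroup.subset_closure ⟨i, j, h, _, single_mem hI hO k a, rfl⟩
    | one => rw [Pi.mulSingle_one]; exact one_mem _
    | mul x y _ _ hx hy => rw [Pi.mulSingle_mul]; exact mul_mem hx hy
    | inv x _ hx => rw [Pi.mulSingle_inv]; exact inv_mem hx
  · intro k
    rw [eq_top_iff, ← hE k]
    unfold E3
    rw [Subgroup.closure_le]
    rintro _ ⟨i, j, h, a, rfl⟩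
    obtain ⟨l, hil, hlj⟩ := third i j
    rw [el_comm hil hlj h a, SetLike.mem_coe, commutator_def]
    exact Subgroup.commutator_mem_commutator (Subgroup.mem_top _) (Subgroup.mem_top _)

end Pool.Agent.N713.FA
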